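import Pool.Agent.H582R5.RP.Stmts

/-! Task A1 (helper663). -/

open Finset Polynomial

namespace Pool.Agent.H582R5.RP

namespace A1_

variable {K : Type} [Field K]

/-- shift minus a scalar -/
noncomputable def NN (l : K) : (ℕ → K) →ₗ[K] (ℕ → K) := aeval (shift K) (X - C l)

theorem NN_apply (l : K) (x : ℕ → K) (n : ℕ) : NN l x n = x (n + 1) - l * x n := by
  unfold NN
  rw [map_sub, aeval_X, aeval_C, LinearMap.sub_apply, Pi.sub_apply,
    Module.algebraMap_end_apply, Pi.smul_apply, smul_eq_mul]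
  rfl

theorem desc (n i : ℕ) :
    (n + 1).descFactorial (i + 1) = n.descFactorial (i + 1) + (i + 1) * n.descFactorial i := by
  rw [Nat.succ_descFactorial_succ, Nat.descFactorial_succ]
  by_cases h : i ≤ n
  · obtain ⟨m, rfl⟩ := Nat.exists_eq_add_of_le h
    rw [Nat.add_sub_cancel_left]
    ring
  · rw [Nat.descFactorial_eq_zero_iff_lt.2 (by omega)]
    simp

theorem NN_zero (l : K) : NN l (SS 0 l) = 0 := by
  funext n
  rw [NN_apply]
  simp [SS, pow_succ, mul_comm]

theorem NN_succ (l : K) (i : ℕ) : NN l (SS (i + 1) l) = ((i : K) + 1) • SS i l := by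
  funext n
  rw [NN_apply]
  simp only [SS, Pi.smul_apply, smul_eq_mul, desc, Nat.add_sub_add_right]
  push_cast
  by_cases h : i + 1 ≤ n
  · have e : n - i = (n - (i + 1)) + 1 := by omega
    rw [e, pow_succ]
    ring
  · rw [Nat.descFactorial_eq_zero_iff_lt.2 (by omega)]
    simp
    ring

theorem NN_pow (l : K) (i : ℕ) : ((NN l) ^ (i + 1)) (SS i l) = 0 := by
  induction i with
  | zero => rw [zero_add, pow_one]; exact NN_zero l
  | succ i ih =>
    rw [pow_succ, Module.End.mul_apply, NN_succ, map_smul, ih, smul_zero]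

end A1_

open A1_ in
theorem a1 : S_A1 := by
  intro K _ L D i l hl hi
  classical
  unfold PL
  rw [← Finset.mul_prod_erase L _ hl, mul_comm, map_mul, map_pow, Module.End.mul_apply]
  have h : ((NN l) ^ (D + 1)) (SS i l) = 0 := by
    obtain ⟨m, rfl⟩ := Nat.exists_eq_add_of_le hi
    rw [show i + m + 1 = m + (i + 1) by ring, pow_add, Module.End.mul_apply, NN_pow, map_zero]
  change (aeval (shift K) _) (((NN l) ^ (D + 1)) (SS i l)) = 0
  rw [h, map_zero]

end Pool.Agent.H582R5.RP
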