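import Pool.Agent.H582R5.RP.Stmts

/-! A2: zero estimate (helper342). -/

open Finset Polynomial

namespace Pool.Agent.H582R5.RP

theorem a2_shift_pow {K : Type} [Field K] (k : ℕ) (x : ℕ → K) (n : ℕ) :
    ((shift K) ^ k) x n = x (n + k) := by
  induction k generalizing x n with
  | zero => simp
  | succ k ih =>
    rw [pow_succ', Module.End.mul_apply]
    change ((shift K) ^ k) x (n + 1) = _
    rw [ih]
    congr 1
    omega

theorem a2_apply {K : Type} [Field K] (P : K[X]) (x : ℕ → K) (n : ℕ) :
    (aeval (shift K) P) x n = ∑ k ∈ range (P.natDegree + 1), P.coeff k * x (n + k) := by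
  rw [aeval_eq_sum_range, LinearMap.sum_apply, Finset.sum_apply]
  refine Finset.sum_congr rfl fun k _ => ?_
  rw [LinearMap.smul_apply, Pi.smul_apply, a2_shift_pow, smul_eq_mul]

theorem a2_natDegree {K : Type} [Field K] (L : Finset K) (D : ℕ) :
    (PL L D).natDegree = L.card * (D + 1) := by
  unfold PL
  rw [natDegree_prod_of_monic]
  · simp
  · intro l _
    exact (monic_X_sub_C l).pow _

theorem a2_coeff {K : Type} [Field K] (L : Finset K) (D : ℕ) (h0 : (0 : K) ∉ L) :
    (PL L D).coeff 0 ≠ 0 := by
  rw [coeff_zero_eq_eval_zero]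
  unfold PL
  rw [eval_prod]
  refine Finset.prod_ne_zero_iff.mpr fun l hl => ?_
  rw [eval_pow, eval_sub, eval_X, eval_C]
  refine pow_ne_zero _ ?_
  rw [zero_sub]
  exact neg_ne_zero.mpr fun h => h0 (h ▸ hl)

theorem a2 : S_A2 := by
  intro K _ L D y z h0 hy hz hzy
  have key : ∀ n, n ≤ D → ∑ k ∈ range ((PL L D).natDegree + 1), (PL L D).coeff k * z (n + k) = 0 := by
    intro n hn
    have h1 := congrFun hy n
    rw [a2_apply] at h1
    have h2 : ∑ k ∈ range ((PL L D).natDegree + 1), (PL L D).coeff k * z (n + k)
        = - ∑ k ∈ range ((PL L D).natDegree + 1), (PL L D).coeff k * y (n + k) := by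
      rw [← Finset.sum_neg_distrib]
      refine Finset.sum_congr rfl fun k hk => ?_
      have hk' : k ≤ L.card * (D + 1) := by
        rw [a2_natDegree] at hk
        exact Nat.lt_succ_iff.mp (Finset.mem_range.mp hk)
      have h3 := hzy (n + k) (by
        have : (L.card + 1) * (D + 1) = L.card * (D + 1) + (D + 1) := by ring
        omega)
      rw [eq_neg_of_add_eq_zero_left h3]
      ring
    rw [h2, h1]
    simp
  have main : ∀ t n, D < n + t → z n = 0 := by
    intro t
    induction t with
    | zero => intro n hn; exact hz n hn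
    | succ t ih =>
      intro n hn
      by_cases hnD : D < n
      · exact hz n hnD
      have h1 := key n (by omega)
      rw [Finset.sum_range_succ'] at h1
      have h2 : ∑ k ∈ range ((PL L D).natDegree), (PL L D).coeff (k + 1) * z (n + (k + 1)) = 0 := by
        refine Finset.sum_eq_zero fun k _ => ?_
        rw [ih (n + (k + 1)) (by omega), mul_zero]
      rw [h2, zero_add, add_zero] at h1
      exact (mul_eq_zero.mp h1).resolve_left (a2_coeff L D h0)
  funext n
  exact main (D + 1) n (by omega)

end Pool.Agent.H582R5.RP
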