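import Pool.Agent.H582R5.RP.Stmts

open Finset Polynomial NumberField

namespace Pool.Agent.H582R5.RP

theorem c_complex (d : ℕ) (hd : 1 ≤ d) (J : Finset ℕ) (hJ : J ⊆ range d) (hne : J.Nonempty) :
    ∑ j ∈ J, (Complex.exp (2 * Real.pi * Complex.I / (2 * d : ℕ))) ^ j ≠ 0 := by
  intro h
  have hd0 : (0 : ℝ) < d := by exact_mod_cast hd
  have hdC : (d : ℂ) ≠ 0 := by exact_mod_cast hd0.ne'
  have him : ∀ j : ℕ, (Complex.exp (2 * Real.pi * Complex.I / (2 * d : ℕ)) ^ j).im =
      Real.sin (Real.pi * j / d) := by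
    intro j
    rw [← Complex.exp_nat_mul]
    have : (j : ℂ) * (2 * Real.pi * Complex.I / (2 * d : ℕ)) =
        ((Real.pi * j / d : ℝ) : ℂ) * Complex.I := by
      push_cast
      field_simp
    rw [this, Complex.exp_ofReal_mul_I_im]
  have h1 : ∑ j ∈ J, Real.sin (Real.pi * j / d) = 0 := by
    have := congrArg Complex.im h
    rw [Complex.im_sum] at this
    simp only [him, Complex.zero_im] at this
    exact this
  have hpi := Real.pi_pos
  have h2 : ∀ j ∈ J, 0 ≤ Real.sin (Real.pi * j / d) := by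
    intro j hj
    have hjd : (j : ℝ) ≤ d := by exact_mod_cast (mem_range.1 (hJ hj)).le
    apply Real.sin_nonneg_of_nonneg_of_le_pi
    · positivity
    · rw [div_le_iff₀ hd0]
      exact mul_le_mul_of_nonneg_left hjd hpi.le
  have h3 := (Finset.sum_eq_zero_iff_of_nonneg h2).1 h1
  have h4 : ∀ j ∈ J, j = 0 := by
    intro j hj
    by_contra hj0
    have hjd : (j : ℝ) < d := by exact_mod_cast (mem_range.1 (hJ hj))
    have hj1 : (0 : ℝ) < j := by exact_mod_cast Nat.pos_of_ne_zero hj0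
    have h5 : 0 < Real.sin (Real.pi * j / d) := by
      apply Real.sin_pos_of_pos_of_lt_pi
      · positivity
      · rw [div_lt_iff₀ hd0]
        exact mul_lt_mul_of_pos_left hjd hpi
    exact h5.ne' (h3 j hj)
  have h5 : J = {0} := Finset.eq_singleton_iff_nonempty_unique_mem.2 ⟨hne, h4⟩
  rw [h5] at h
  simp at h

theorem c_aux (p d : ℕ) (hp : p.Prime) (hd : 1 ≤ d) (hlt : d ^ (Nat.totient (2 * d)) < p)
    (F : Type) [Field F] [NumberField F] [NeZero (2 * d)] [IsCyclotomicExtension {2 * d} ℚ F] :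
    ∃ (K : Type) (_ : Field K) (_ : CharP K p) (η : K), η ^ d = -1 ∧
    (∀ k : ℕ, ∑ j ∈ range d, η ^ (2 * k * j) = if d ∣ k then (d : K) else 0) ∧
    ∀ J : Finset ℕ, J ⊆ range d → J.Nonempty → ∑ j ∈ J, η ^ j ≠ 0 := by
  have hζF := IsCyclotomicExtension.zeta_spec (2 * d) ℚ F
  let ζ : 𝓞 F := hζF.toInteger
  have hζ : IsPrimitiveRoot ζ (2 * d) := hζF.toInteger_isPrimitiveRoot
  have hpf : Fact p.Prime := ⟨hp⟩
  obtain ⟨P, hPmax, hPp⟩ : ∃ Q : Ideal (𝓞 F), Q.IsMaximal ∧ (p : 𝓞 F) ∈ Q := by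
    have hmax : (Ideal.span {(p : ℤ)}).IsMaximal :=
      Int.ideal_span_isMaximal_of_prime p
    obtain ⟨Q, hQ, hQc⟩ := Ideal.exists_ideal_over_maximal_of_isIntegral (S := 𝓞 F)
      (Ideal.span {(p : ℤ)}) (by
        rw [(RingHom.injective_iff_ker_eq_bot _).1 (FaithfulSMul.algebraMap_injective ℤ (𝓞 F))]
        exact bot_le)
    refine ⟨Q, hQ, ?_⟩
    have h1 : (p : ℤ) ∈ Q.comap (algebraMap ℤ (𝓞 F)) := by
      rw [hQc]
      exact Ideal.mem_span_singleton_self _
    simpa using h1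
  let _ : Field (𝓞 F ⧸ P) := Ideal.Quotient.field P
  have hp0 : ((p : ℕ) : 𝓞 F ⧸ P) = 0 := by
    rw [← map_natCast (Ideal.Quotient.mk P)]
    exact Ideal.Quotient.eq_zero_iff_mem.2 hPp
  have hchar : CharP (𝓞 F ⧸ P) p := by
    have h1 : ringChar (𝓞 F ⧸ P) = p := CharP.ringChar_of_prime_eq_zero hp hp0
    exact ringChar.of_eq h1
  refine ⟨𝓞 F ⧸ P, inferInstance, hchar, Ideal.Quotient.mk P ζ, ?_, ?_, ?_⟩
  · have h1 : ζ ^ d = -1 := by
      have h2 : (ζ ^ d - 1) * (ζ ^ d + 1) = 0 := by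
        have h3 : ζ ^ (2 * d) = 1 := hζ.pow_eq_one
        have h4 : (ζ ^ d - 1) * (ζ ^ d + 1) = ζ ^ (2 * d) - 1 := by ring
        rw [h4, h3, sub_self]
      rcases mul_eq_zero.1 h2 with h3 | h3
      · exact absurd (sub_eq_zero.1 h3) (hζ.pow_ne_one_of_pos_of_lt (by omega) (by omega))
      · exact eq_neg_of_add_eq_zero_left h3
    rw [← map_pow, h1, map_neg, map_one]
  · intro k
    have hω : IsPrimitiveRoot (ζ ^ 2) d := hζ.pow (by omega) rfl
    have h1 : ∑ j ∈ range d, ζ ^ (2 * k * j) = if d ∣ k then (d : 𝓞 F) else 0 := by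
      have h2 : ∀ j, ζ ^ (2 * k * j) = ((ζ ^ 2) ^ k) ^ j := by
        intro j
        rw [← pow_mul, ← pow_mul, mul_assoc]
      simp only [h2]
      split_ifs with hk
      · rw [hω.pow_eq_one_iff_dvd k |>.2 hk]
        simp
      · have h3 : (ζ ^ 2) ^ k ≠ 1 := fun h => hk ((hω.pow_eq_one_iff_dvd k).1 h)
        have h4 := mul_geom_sum ((ζ ^ 2) ^ k) d
        have h5 : ((ζ ^ 2) ^ k) ^ d = 1 := by
          rw [← pow_mul, mul_comm k d, pow_mul, hω.pow_eq_one, one_pow]
        rw [h5, sub_self] at h4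
        exact (mul_eq_zero.1 h4).resolve_left (sub_ne_zero.2 h3)
    have h2 := congrArg (Ideal.Quotient.mk P) h1
    rw [map_sum] at h2
    simp only [map_pow] at h2
    rw [h2]
    split_ifs with hk
    · simp
    · simp
  · intro J hJ hJne hJ0
    set x : 𝓞 F := ∑ j ∈ J, ζ ^ j with hx
    have hxP : x ∈ P := by
      rw [← Ideal.Quotient.eq_zero_iff_mem, hx, map_sum]
      simpa [map_pow] using hJ0
    have hx0 : x ≠ 0 := by
      intro h0
      have h1 : aeval (hζF.toInteger : F) (∑ j ∈ J, (X : ℚ[X]) ^ j) = 0 := by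
        rw [map_sum]
        simp only [map_pow, aeval_X]
        have h2 := congrArg (algebraMap (𝓞 F) F) h0
        rw [hx, map_sum, map_zero] at h2
        rw [← h2]
        refine Finset.sum_congr rfl (fun j _ => ?_)
        exact (map_pow (algebraMap (𝓞 F) F) ζ j).symm
      have h2 : cyclotomic (2 * d) ℚ ∣ ∑ j ∈ J, (X : ℚ[X]) ^ j := by
        rw [cyclotomic_eq_minpoly_rat hζF (by omega)]
        exact minpoly.dvd _ _ h1
      have h3 : IsPrimitiveRoot (Complex.exp (2 * Real.pi * Complex.I / (2 * d : ℕ))) (2 * d) :=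
        Complex.isPrimitiveRoot_exp _ (by omega)
      have h4 : aeval (Complex.exp (2 * Real.pi * Complex.I / (2 * d : ℕ)))
          (∑ j ∈ J, (X : ℚ[X]) ^ j) = 0 := by
        obtain ⟨q, hq⟩ := h2
        rw [hq, map_mul]
        have h5 : aeval (Complex.exp (2 * Real.pi * Complex.I / (2 * d : ℕ)))
            (cyclotomic (2 * d) ℚ) = 0 := by
          rw [aeval_def, ← eval_map, map_cyclotomic]
          exact (isRoot_cyclotomic_iff.2 h3)
        rw [h5, zero_mul]
      rw [map_sum] at h4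
      simp only [map_pow, aeval_X] at h4
      exact c_complex d hd J hJ hJne h4
    have hN0 : Algebra.norm ℤ x ≠ 0 := by
      rw [Ne, Algebra.norm_eq_zero_iff]
      exact hx0
    have hdvd : p ∣ (Algebra.norm ℤ x).natAbs := by
      have h1 : ((Ideal.absNorm (Ideal.span {x}) : ℕ) : 𝓞 F) ∈ Ideal.span {x} :=
        Ideal.absNorm_mem _
      rw [Ideal.absNorm_span_singleton] at h1
      have h2 : (((Algebra.norm ℤ x).natAbs : ℕ) : 𝓞 F) ∈ P :=
        ((Ideal.span_singleton_le_iff_mem P).2 hxP) h1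
      have h3 : (((Algebra.norm ℤ x).natAbs : ℕ) : 𝓞 F ⧸ P) = 0 := by
        rw [← map_natCast (Ideal.Quotient.mk P)]
        exact Ideal.Quotient.eq_zero_iff_mem.2 h2
      exact (CharP.cast_eq_zero_iff (𝓞 F ⧸ P) p _).1 h3
    have hle : (Algebra.norm ℤ x).natAbs ≤ d ^ (Nat.totient (2 * d)) := by
      have h1 : (algebraMap ℚ ℂ) (Algebra.norm ℚ (x : F)) = ∏ σ : F →ₐ[ℚ] ℂ, σ (x : F) :=
        Algebra.norm_eq_prod_embeddings ℚ ℂ (x : F)
      rw [← Algebra.coe_norm_int x] at h1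
      have h2 : (((Algebra.norm ℤ x).natAbs : ℕ) : ℝ) = ‖∏ σ : F →ₐ[ℚ] ℂ, σ (x : F)‖ := by
        rw [← h1, Nat.cast_natAbs]
        simp
      have h3 : ‖∏ σ : F →ₐ[ℚ] ℂ, σ (x : F)‖ ≤ (d : ℝ) ^ (Nat.totient (2 * d)) := by
        rw [norm_prod]
        have h4 : ∀ σ : F →ₐ[ℚ] ℂ, ‖σ (x : F)‖ ≤ d := by
          intro σ
          have h5 : ‖σ (hζF.toInteger : F)‖ = 1 := by
            apply Complex.norm_eq_one_of_pow_eq_one (n := 2 * d)
            · rw [← map_pow]
              have := hζF.pow_eq_one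
              change σ ((IsCyclotomicExtension.zeta (2 * d) ℚ F) ^ (2 * d)) = 1
              rw [this, map_one]
            · omega
          have h6 : σ (x : F) = ∑ j ∈ J, (σ (hζF.toInteger : F)) ^ j := by
            rw [hx]
            simp [ζ, map_sum, map_pow]
          rw [h6]
          refine (norm_sum_le _ _).trans ?_
          simp only [norm_pow, h5, one_pow, sum_const, nsmul_eq_mul, mul_one]
          have := card_le_card hJ
          rw [card_range] at this
          exact_mod_cast this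
        refine (Finset.prod_le_prod (fun _ _ => norm_nonneg _) (fun σ _ => h4 σ)).trans ?_
        rw [prod_const, Finset.card_univ, AlgHom.card ℚ F ℂ,
          IsCyclotomicExtension.finrank F (cyclotomic.irreducible_rat (by omega : 0 < 2 * d))]
      rw [← h2] at h3
      exact_mod_cast h3
    have hpos : 0 < (Algebra.norm ℤ x).natAbs := Int.natAbs_pos.2 hN0
    have := Nat.le_of_dvd hpos hdvd
    omega

theorem c : S_C := by
  intro p d hp hd hlt
  have hne : NeZero (2 * d) := ⟨by omega⟩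
  have h1 : IsCyclotomicExtension {2 * d} ℚ (CyclotomicField (2 * d) ℚ) :=
    CyclotomicField.isCyclotomicExtension _ _
  have h2 : NumberField (CyclotomicField (2 * d) ℚ) :=
    IsCyclotomicExtension.numberField {2 * d} ℚ _
  exact c_aux p d hp hd hlt (CyclotomicField (2 * d) ℚ)

end Pool.Agent.H582R5.RP
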