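import Mathlib

open Finset Polynomial

namespace Pool.Agent.H582R5.RP

/-- shift on sequences -/
def shift (K : Type) [Field K] : (ℕ → K) →ₗ[K] (ℕ → K) where
  toFun x := fun n => x (n + 1)
  map_add' _ _ := rfl
  map_smul' _ _ := rfl

/-- the sequence `n(n-1)...(n-i+1) lam^(n-i)` -/
def SS {K : Type} [Field K] (i : ℕ) (lam : K) : ℕ → K :=
  fun n => (n.descFactorial i : K) * lam ^ (n - i)

/-- the annihilating polynomial -/
noncomputable def PL {K : Type} [Field K] (L : Finset K) (D : ℕ) : K[X] :=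
  ∏ l ∈ L, (X - C l) ^ (D + 1)

/-- A1: the operator kills exponential polynomials -/
def S_A1 : Prop := ∀ (K : Type) [Field K] (L : Finset K) (D i : ℕ) (l : K), l ∈ L → i ≤ D →
  (aeval (shift K) (PL L D)) (SS i l) = 0

/-- A2: zero estimate -/
def S_A2 : Prop := ∀ (K : Type) [Field K] (L : Finset K) (D : ℕ) (y z : ℕ → K), (0 : K) ∉ L →
  (aeval (shift K) (PL L D)) y = 0 → (∀ n, D < n → z n = 0) →
  (∀ n, n < (L.card + 1) * (D + 1) → z n + y n = 0) → z = 0

/-- C: the residue field -/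
def S_C : Prop := ∀ (p d : ℕ), p.Prime → 1 ≤ d → d ^ (Nat.totient (2 * d)) < p →
  ∃ (K : Type) (_ : Field K) (_ : CharP K p) (η : K), η ^ d = -1 ∧
    (∀ k : ℕ, ∑ j ∈ range d, η ^ (2 * k * j) = if d ∣ k then (d : K) else 0) ∧
    ∀ J : Finset ℕ, J ⊆ range d → J.Nonempty → ∑ j ∈ J, η ^ j ≠ 0

end Pool.Agent.H582R5.RP
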