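import Mathlib
import Pool.Agent.H332R2.CastLem
import Pool.Agent.H582R5.RP.Stmts

open Finset PowerSeries

namespace Pool.Agent.H582R5.RP

variable {K : Type} [Field K]

/-- truncated exponential in characteristic `p` -/
noncomputable def ee (l : K) : PowerSeries K := PowerSeries.mk (fun n => l ^ n * (n.factorial : K)⁻¹)

/-- the quotient ring `K[[X]]/(X^N)` -/
abbrev QR (K : Type) [Field K] (N : ℕ) := PowerSeries K ⧸ (Ideal.span {(X : PowerSeries K) ^ N})

noncomputable abbrev qm (K : Type) [Field K] (N : ℕ) : PowerSeries K →+* QR K N :=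
  Ideal.Quotient.mk (Ideal.span {(X : PowerSeries K) ^ N})

lemma qm_eq_iff (N : ℕ) (f g : PowerSeries K) :
    qm K N f = qm K N g ↔ ∀ n, n < N → coeff n f = coeff n g := by
  rw [Ideal.Quotient.eq, Ideal.mem_span_singleton, PowerSeries.X_pow_dvd_iff]
  constructor
  · intro h n hn
    have := h n hn
    rw [map_sub, sub_eq_zero] at this
    exact this
  · intro h n hn
    rw [map_sub, h n hn, sub_self]

lemma fact_ne (p : ℕ) [Fact p.Prime] [CharP K p] {n : ℕ} (hn : n < p) : (n.factorial : K) ≠ 0 := by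
  intro h
  rw [CharP.cast_eq_zero_iff K p] at h
  have := (Nat.Prime.dvd_factorial (Fact.out : p.Prime)).mp h
  omega

lemma ee_zero : ee (0 : K) = 1 := by
  ext n
  rw [ee, coeff_mk, coeff_one]
  split_ifs with h
  · subst h; simp
  · rw [zero_pow h, zero_mul]

lemma qm_ee_add (p : ℕ) [Fact p.Prime] [CharP K p] (N : ℕ) (hN : N ≤ p) (l m : K) :
    qm K N (ee (l + m)) = qm K N (ee l) * qm K N (ee m) := by
  rw [← map_mul, qm_eq_iff]
  intro n hn
  rw [coeff_mul, ee, coeff_mk]
  rw [Finset.Nat.sum_antidiagonal_eq_sum_range_succ_mk]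
  rw [add_pow, Finset.sum_mul]
  refine Finset.sum_congr rfl (fun k hk => ?_)
  rw [Finset.mem_range] at hk
  have hkn : k ≤ n := by omega
  simp only [ee, coeff_mk]
  have h1 := fact_ne (K := K) p (n := n) (by omega)
  have h2 := fact_ne (K := K) p (n := k) (by omega)
  have h3 := fact_ne (K := K) p (n := n - k) (by omega)
  have h4 : ((n.choose k : ℕ) : K) * (k.factorial : K) * ((n - k).factorial : K) = (n.factorial : K) := by
    exact_mod_cast congrArg (fun n : ℕ => (n : K)) (Nat.choose_mul_factorial_mul_factorial hkn)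
  rw [← h4] at h1 ⊢
  have h5 : ((n.choose k : ℕ) : K) ≠ 0 := by
    intro h0; rw [h0] at h1; simp at h1
  field_simp

lemma qm_ee_sum (p : ℕ) [Fact p.Prime] [CharP K p] (N : ℕ) (hN : N ≤ p) (J : Finset ℕ) (f : ℕ → K) :
    qm K N (ee (∑ j ∈ J, f j)) = ∏ j ∈ J, qm K N (ee (f j)) := by
  classical
  induction J using Finset.induction_on with
  | empty => simp [ee_zero]
  | insert a J ha ih =>
    rw [Finset.sum_insert ha, Finset.prod_insert ha, qm_ee_add p N hN, ih]

lemma prod_expand (p : ℕ) [Fact p.Prime] [CharP K p] (N : ℕ) (hN : N ≤ p) (I : Finset ℕ) (f : ℕ → K) :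
    ∏ j ∈ I, (qm K N (ee (f j)) - 1) =
      ∑ J ∈ I.powerset, (-1) ^ (I \ J).card * qm K N (ee (∑ j ∈ J, f j)) := by
  classical
  simp_rw [sub_eq_add_neg]
  rw [Finset.prod_add]
  refine Finset.sum_congr rfl (fun J hJ => ?_)
  rw [qm_ee_sum p N hN, Finset.prod_const, mul_comm]

/-- Bernoulli series -/
noncomputable def bb (p : ℕ) [Fact p.Prime] [Algebra (ZMod p) K] : PowerSeries K :=
  PowerSeries.mk (fun n => algebraMap (ZMod p) K (Pool.Agent.H332R2.cc p n))

lemma bb_rec (p : ℕ) [Fact p.Prime] [Algebra (ZMod p) K] (N : ℕ) (hN : N ≤ p) :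
    qm K N ((ee 1 - 1) * bb p) = qm K N X := by
  rw [qm_eq_iff]
  intro n hn
  rw [sub_mul, one_mul, map_sub, coeff_mul, Finset.Nat.sum_antidiagonal_eq_sum_range_succ_mk]
  rw [← Finset.sum_range_reflect]
  simp only [ee, bb, coeff_mk, one_pow, one_mul]
  rw [coeff_X]
  have hfac : ∀ k : ℕ, ((k.factorial : ℕ) : K)⁻¹ = algebraMap (ZMod p) K (((k.factorial : ℕ) : ZMod p)⁻¹) := by
    intro k
    rw [map_inv₀, map_natCast]
  have hre : ∀ j ∈ range n.succ, ((n.succ - 1 - j).factorial : K)⁻¹ *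
      algebraMap (ZMod p) K (Pool.Agent.H332R2.cc p (n - (n.succ - 1 - j))) =
      algebraMap (ZMod p) K (Pool.Agent.H332R2.cc p j * (((n - j).factorial : ℕ) : ZMod p)⁻¹) := by
    intro j hj
    rw [Finset.mem_range] at hj
    have h1 : n.succ - 1 - j = n - j := by omega
    have h2 : n - (n - j) = j := by omega
    rw [h1, h2, hfac, map_mul, mul_comm]
  rw [Finset.sum_congr rfl hre, ← map_sum, Finset.sum_range_succ, Nat.sub_self, Nat.factorial_zero,
    Nat.cast_one, inv_one, mul_one, ← map_sub, add_sub_cancel_right]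
  split_ifs with h
  · subst h
    rw [Finset.sum_range_one, Pool.Agent.H332R2.cc_zero]
    simp
  · rcases Nat.lt_or_ge n 1 with h1 | h1
    · have : n = 0 := by omega
      subst this
      simp
    · rw [Pool.Agent.H332R2.cc_rec (by omega) (by omega), map_zero]

lemma rescale_ee (a l : K) : rescale a (ee l) = ee (a * l) := by
  ext n
  rw [coeff_rescale, ee, ee, coeff_mk, coeff_mk, mul_pow, mul_assoc]

lemma bb_rec' (p : ℕ) [Fact p.Prime] [Algebra (ZMod p) K] (N : ℕ) (hN : N ≤ p) (a : K) :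
    (qm K N (ee a) - 1) * qm K N (rescale a (bb p)) = qm K N (C a * X) := by
  have h := bb_rec (K := K) p N hN
  rw [qm_eq_iff] at h
  have h1 : rescale a ((ee 1 - 1) * bb p) = (ee a - 1) * rescale a (bb p) := by
    rw [map_mul, map_sub, rescale_ee, map_one, mul_one]
  rw [← map_one (qm K N), ← map_sub, ← map_mul, ← h1, qm_eq_iff]
  intro n hn
  rw [coeff_rescale, h n hn, coeff_C_mul, coeff_X]
  split_ifs with h2
  · subst h2; simp
  · simp

end Pool.Agent.H582R5.RP
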