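import Mathlib
import Pool.Agent.H582R5.RP.Ser

open Finset PowerSeries

namespace Pool.Agent.H582R5.RP

variable {K : Type} [Field K]

/-- the frequency of a set of indices -/
def lam (eta : K) (J : Finset ℕ) : K := ∑ j ∈ J, eta ^ j

/-- the full series of the section -/
noncomputable def gg (p : ℕ) [Fact p.Prime] [Algebra (ZMod p) K] (eta : K) (d r : ℕ) : PowerSeries K :=
  ∑ j ∈ range d, C (eta ^ (2 * r * j)) * rescale (eta ^ j) (bb p)

/-- the truncated section -/
noncomputable def gt (p : ℕ) [Fact p.Prime] [Algebra (ZMod p) K] (eta : K) (d r D : ℕ) : PowerSeries K :=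
  ∑ i ∈ range (D + 1), C (coeff i (gg p eta d r)) * X ^ i

noncomputable def ZZ (p : ℕ) [Fact p.Prime] [Algebra (ZMod p) K] (eta : K) (d r D : ℕ) : PowerSeries K :=
  (∑ J ∈ (range d).powerset, (-1) ^ (range d \ J).card * ee (lam eta J)) * gt p eta d r D
    - ∑ j ∈ range d, C (eta ^ (2 * r * j) * eta ^ j) * X *
        ∑ J ∈ ((range d).erase j).powerset, (-1) ^ ((range d).erase j \ J).card * ee (lam eta J)

lemma coeff_gg (p : ℕ) [Fact p.Prime] [Algebra (ZMod p) K] (eta : K) (d r n : ℕ) :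
    coeff n (gg p eta d r) = (∑ j ∈ range d, eta ^ ((2 * r + n) * j)) *
      algebraMap (ZMod p) K (Pool.Agent.H332R2.cc p n) := by
  rw [gg, map_sum, Finset.sum_mul]
  refine Finset.sum_congr rfl (fun j _ => ?_)
  rw [coeff_C_mul, coeff_rescale, bb, coeff_mk, ← mul_assoc]
  congr 1
  ring

lemma coeff_gt (p : ℕ) [Fact p.Prime] [Algebra (ZMod p) K] (eta : K) (d r D n : ℕ) :
    coeff n (gt p eta d r D) = if n ≤ D then coeff n (gg p eta d r) else 0 := by
  rw [gt, map_sum]
  simp_rw [coeff_C_mul, coeff_X_pow]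
  simp only [mul_ite, mul_one, mul_zero]
  rw [Finset.sum_ite_eq (range (D + 1)) n]
  simp only [Finset.mem_range, Nat.lt_succ_iff]

lemma qm_ZZ (p : ℕ) [Fact p.Prime] [CharP K p] [Algebra (ZMod p) K] (N : ℕ) (hN : N ≤ p)
    (eta : K) (d r D : ℕ)
    (hvan : ∀ n, D < n → n < N → coeff n (gg p eta d r) = 0) :
    qm K N (ZZ p eta d r D) = 0 := by
  have hgt : qm K N (gt p eta d r D) = qm K N (gg p eta d r) := by
    rw [qm_eq_iff]
    intro n hn
    rw [coeff_gt]
    split_ifs with h
    · rfl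
    · rw [hvan n (by omega) hn]
  have hF := prod_expand (K := K) p N hN (range d) (fun j => eta ^ j)
  have hFj : ∀ j, ∏ i ∈ (range d).erase j, (qm K N (ee (eta ^ i)) - 1) = _ :=
    fun j => prod_expand (K := K) p N hN ((range d).erase j) (fun j => eta ^ j)
  have hkey : (∏ j ∈ range d, (qm K N (ee (eta ^ j)) - 1)) * qm K N (gg p eta d r) =
      ∑ j ∈ range d, qm K N (C (eta ^ (2 * r * j) * eta ^ j)) * qm K N X *
        ∏ i ∈ (range d).erase j, (qm K N (ee (eta ^ i)) - 1) := by
    rw [gg, map_sum, Finset.mul_sum]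
    refine Finset.sum_congr rfl (fun j hj => ?_)
    rw [← Finset.mul_prod_erase (range d) (fun j => qm K N (ee (eta ^ j)) - 1) hj]
    rw [map_mul (qm K N), map_mul C, map_mul (qm K N)]
    have h := bb_rec' (K := K) p N hN (eta ^ j)
    rw [map_mul (qm K N)] at h
    calc (qm K N (ee (eta ^ j)) - 1) * (∏ x ∈ (range d).erase j, (qm K N (ee (eta ^ x)) - 1)) *
          (qm K N (C (eta ^ (2 * r * j))) * qm K N (rescale (eta ^ j) (bb p)))
        = qm K N (C (eta ^ (2 * r * j))) * (∏ x ∈ (range d).erase j, (qm K N (ee (eta ^ x)) - 1)) *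
          ((qm K N (ee (eta ^ j)) - 1) * qm K N (rescale (eta ^ j) (bb p))) := by ring
      _ = _ := by rw [h]; ring
  rw [ZZ, map_sub, map_mul, hgt, map_sum, map_sum, sub_eq_zero]
  rw [hF] at hkey
  have e1 : ∑ x ∈ (range d).powerset, (qm K N) ((-1) ^ (range d \ x).card * ee (lam eta x)) =
      ∑ J ∈ (range d).powerset, (-1) ^ ((range d) \ J).card * qm K N (ee (∑ j ∈ J, eta ^ j)) := by
    refine Finset.sum_congr rfl (fun J _ => ?_)
    rw [map_mul, map_pow, map_neg, map_one]
    rfl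
  rw [e1, hkey]
  refine Finset.sum_congr rfl (fun j _ => ?_)
  rw [map_mul (qm K N) (C (eta ^ (2 * r * j) * eta ^ j) * X),
    map_mul (qm K N) (C (eta ^ (2 * r * j) * eta ^ j)) X, map_sum, hFj j]
  congr 1

lemma coeff_ee_X (p : ℕ) [Fact p.Prime] [CharP K p] (l : K) (i n : ℕ) (hn : n < p) :
    (n.factorial : K) * coeff n (ee l * X ^ i) = SS i l n := by
  rw [coeff_mul_X_pow', SS]
  split_ifs with h
  · rw [ee, coeff_mk]
    have h1 := Nat.factorial_mul_descFactorial h
    have h2 := fact_ne (K := K) p (n := n - i) (by omega)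
    have h3 : (((n - i).factorial : ℕ) : K) * (n.descFactorial i : K) = (n.factorial : K) := by
      exact_mod_cast congrArg (fun n : ℕ => (n : K)) h1
    rw [← h3]
    field_simp
  · rw [Nat.descFactorial_of_lt (by omega)]
    simp

end Pool.Agent.H582R5.RP
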