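import Mathlib
import Pool.Agent.H582R5.RP.Id

open Finset PowerSeries

namespace Pool.Agent.H582R5.RP

variable {K : Type} [Field K]

lemma lam_empty (eta : K) : lam eta ∅ = 0 := by simp [lam]

lemma fact_coeff_main (p : ℕ) [Fact p.Prime] [CharP K p] [Algebra (ZMod p) K]
    (eta : K) (d r D n : ℕ) (hn : n < p) (l : K) :
    (n.factorial : K) * coeff n (ee l * gt p eta d r D) =
      ∑ i ∈ range (D + 1), coeff i (gg p eta d r) * SS i l n := by
  rw [gt, Finset.mul_sum, map_sum, Finset.mul_sum]
  refine Finset.sum_congr rfl (fun i _ => ?_)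
  rw [← coeff_ee_X p l i n hn, mul_left_comm, coeff_C_mul]
  ring

/-- nonzero-frequency part -/
noncomputable def yy (p : ℕ) [Fact p.Prime] [Algebra (ZMod p) K] (eta : K) (d r D : ℕ) : ℕ → K :=
  (∑ J ∈ (range d).powerset.erase ∅, (-1 : K) ^ (range d \ J).card •
      ∑ i ∈ range (D + 1), coeff i (gg p eta d r) • SS i (lam eta J))
    - ∑ j ∈ range d, (eta ^ (2 * r * j) * eta ^ j) •
        ∑ J ∈ ((range d).erase j).powerset.erase ∅, (-1 : K) ^ ((range d).erase j \ J).card •
          SS 1 (lam eta J)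

/-- zero-frequency part -/
noncomputable def zz (p : ℕ) [Fact p.Prime] [Algebra (ZMod p) K] (eta : K) (d r D : ℕ) : ℕ → K :=
  ((-1 : K) ^ d • ∑ i ∈ range (D + 1), coeff i (gg p eta d r) • SS i (0 : K))
    - ∑ j ∈ range d, (eta ^ (2 * r * j) * eta ^ j) • ((-1 : K) ^ (d - 1) • SS 1 (0 : K))

lemma fact_coeff_ZZ (p : ℕ) [Fact p.Prime] [CharP K p] [Algebra (ZMod p) K]
    (eta : K) (d r D n : ℕ) (hn : n < p) :
    (n.factorial : K) * coeff n (ZZ p eta d r D) = zz p eta d r D n + yy p eta d r D n := by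
  classical
  rw [ZZ, map_sub, mul_sub, zz, yy]
  have e1 : (n.factorial : K) * coeff n ((∑ J ∈ (range d).powerset, (-1) ^ (range d \ J).card *
      ee (lam eta J)) * gt p eta d r D) =
      ∑ J ∈ (range d).powerset, (-1 : K) ^ (range d \ J).card *
        ∑ i ∈ range (D + 1), coeff i (gg p eta d r) * SS i (lam eta J) n := by
    rw [Finset.sum_mul, map_sum, Finset.mul_sum]
    refine Finset.sum_congr rfl (fun J _ => ?_)
    rw [← fact_coeff_main p eta d r D n hn]
    have : ((-1 : PowerSeries K) ^ (range d \ J).card) = C ((-1 : K) ^ (range d \ J).card) := by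
      simp
    rw [this, mul_assoc (C _), coeff_C_mul]
    ring
  have e2 : (n.factorial : K) * coeff n (∑ j ∈ range d, C (eta ^ (2 * r * j) * eta ^ j) * X *
        ∑ J ∈ ((range d).erase j).powerset, (-1) ^ ((range d).erase j \ J).card * ee (lam eta J)) =
      ∑ j ∈ range d, (eta ^ (2 * r * j) * eta ^ j) * ∑ J ∈ ((range d).erase j).powerset,
        (-1 : K) ^ ((range d).erase j \ J).card * SS 1 (lam eta J) n := by
    rw [map_sum, Finset.mul_sum]
    refine Finset.sum_congr rfl (fun j _ => ?_)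
    rw [mul_assoc, coeff_C_mul, Finset.mul_sum, map_sum, mul_left_comm, Finset.mul_sum]
    congr 1
    refine Finset.sum_congr rfl (fun J _ => ?_)
    rw [← coeff_ee_X p (lam eta J) 1 n hn]
    have : ((-1 : PowerSeries K) ^ ((range d).erase j \ J).card) =
        C ((-1 : K) ^ ((range d).erase j \ J).card) := by
      simp
    rw [this, mul_left_comm, coeff_C_mul, pow_one, mul_comm X]
    ring
  rw [e1, e2]
  have hmem : ∅ ∈ (range d).powerset := by simp
  rw [← Finset.add_sum_erase _ _ hmem]
  have e3 : ∀ j ∈ range d, (eta ^ (2 * r * j) * eta ^ j) * ∑ J ∈ ((range d).erase j).powerset,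
        (-1 : K) ^ ((range d).erase j \ J).card * SS 1 (lam eta J) n =
      (eta ^ (2 * r * j) * eta ^ j) * ((-1 : K) ^ (d - 1) * SS 1 (0 : K) n) +
      (eta ^ (2 * r * j) * eta ^ j) * ∑ J ∈ ((range d).erase j).powerset.erase ∅,
        (-1 : K) ^ ((range d).erase j \ J).card * SS 1 (lam eta J) n := by
    intro j hj
    have hmem : ∅ ∈ ((range d).erase j).powerset := by simp
    rw [← Finset.add_sum_erase _ _ hmem, mul_add, lam_empty, Finset.sdiff_empty,
      Finset.card_erase_of_mem hj, Finset.card_range]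
  rw [Finset.sum_congr rfl e3, Finset.sum_add_distrib, lam_empty, Finset.sdiff_empty, Finset.card_range]
  simp only [Pi.sub_apply, Pi.smul_apply, Finset.sum_apply, smul_eq_mul]
  ring

end Pool.Agent.H582R5.RP
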