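import Mathlib
import Pool.Agent.H582R5.RP.Core

open Finset PowerSeries

namespace Pool.Agent.H582R5.RP

lemma cc_one (p : ℕ) [Fact p.Prime] (h3 : 3 ≤ p) : Pool.Agent.H332R2.cc p 1 = -(2 : ZMod p)⁻¹ := by
  have h := Pool.Agent.H332R2.cc_rec (p := p) (m := 2) le_rfl h3
  rw [Finset.sum_range_succ, Finset.sum_range_one, Pool.Agent.H332R2.cc_zero] at h
  norm_num at h
  linear_combination h

lemma SS_zero_one {K : Type} [Field K] (i : ℕ) : SS i (0 : K) 1 = if i = 1 then 1 else 0 := by
  unfold SS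
  rcases Nat.lt_trichotomy i 1 with h | h | h
  · have : i = 0 := by omega
    subst this; simp
  · subst h; simp
  · rw [Nat.descFactorial_of_lt h, if_neg (by omega)]; simp

lemma SS_zero_big {K : Type} [Field K] (i n : ℕ) (h : i < n) : SS i (0 : K) n = 0 := by
  unfold SS
  rw [zero_pow (by omega), mul_zero]

theorem core (hA1 : S_A1) (hA2 : S_A2) (p : ℕ) [Fact p.Prime] (K : Type) [Field K] [CharP K p]
    (eta : K) (d r a : ℕ) (hd : 1 ≤ d) (ha : 1 ≤ a) (hN : 2 ^ d * (2 * a + 1) < p)
    (h1 : eta ^ d = -1)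
    (h2 : ∀ k : ℕ, ∑ j ∈ range d, eta ^ (2 * k * j) = if d ∣ k then (d : K) else 0)
    (h3 : ∀ J : Finset ℕ, J ⊆ range d → J.Nonempty → ∑ j ∈ J, eta ^ j ≠ 0)
    (hirr : ∀ m : ℕ, a < m → 2 * m < 2 ^ d * (2 * a + 1) → d ∣ m + r →
      (p : ℤ) ∣ (bernoulli (2 * m)).num) : False := by
  classical
  let _ : Algebra (ZMod p) K := ZMod.algebra K p
  have h2d : 2 ≤ 2 ^ d := by
    calc 2 = 2 ^ 1 := by norm_num
      _ ≤ 2 ^ d := Nat.pow_le_pow_right (by norm_num) hd
  have hp6 : 6 < p := by nlinarith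
  set N := 2 ^ d * (2 * a + 1) with hNdef
  set D := 2 * a with hDdef
  have hvan : ∀ n, D < n → n < N → coeff n (gg (K := K) p eta d r) = 0 := by
    intro n hn1 hn2
    rw [coeff_gg]
    rcases Nat.even_or_odd' n with ⟨m, hm | hm⟩
    · subst hm
      have e : ∑ j ∈ range d, eta ^ ((2 * r + 2 * m) * j) = if d ∣ r + m then (d : K) else 0 := by
        rw [← h2 (r + m)]
        refine Finset.sum_congr rfl (fun j _ => ?_)
        congr 1; ring
      rw [e]
      split_ifs with hdv
      · have hz : Pool.Agent.H332R2.cc p (2 * m) = 0 := by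
          rw [Pool.Agent.H332R2.cc_eq_zero_iff]
          · exact hirr m (by omega) hn2 (by rwa [add_comm])
          · omega
          · omega
        rw [hz, map_zero, mul_zero]
      · rw [zero_mul]
    · subst hm
      have hb : bernoulli (2 * m + 1) = 0 := bernoulli_eq_zero_of_odd ⟨m, rfl⟩ (by omega)
      unfold Pool.Agent.H332R2.cc
      rw [hb]
      simp
  have hZ := qm_ZZ (K := K) p N (le_of_lt hN) eta d r D hvan
  rw [← map_zero (qm K N), qm_eq_iff] at hZ
  set L : Finset K := ((range d).powerset.erase ∅).image (lam eta) with hL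
  have h0L : (0 : K) ∉ L := by
    rw [hL, Finset.mem_image]
    rintro ⟨J, hJ, hJ0⟩
    rw [Finset.mem_erase, Finset.mem_powerset] at hJ
    exact h3 J hJ.2 (Finset.nonempty_iff_ne_empty.mpr hJ.1) hJ0
  have hcard : L.card + 1 ≤ 2 ^ d := by
    have hh : L.card ≤ ((range d).powerset.erase ∅).card := Finset.card_image_le
    rw [Finset.card_erase_of_mem (by simp), Finset.card_powerset, Finset.card_range] at hh
    omega
  have hkill : ∀ J : Finset ℕ, J ⊆ range d → J ≠ ∅ → ∀ i, i ≤ D →
      (Polynomial.aeval (shift K) (PL L D)) (SS i (lam eta J)) = 0 := by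
    intro J hJ hJ0 i hi
    refine hA1 K L D i _ ?_ hi
    rw [hL, Finset.mem_image]
    exact ⟨J, by rw [Finset.mem_erase, Finset.mem_powerset]; exact ⟨hJ0, hJ⟩, rfl⟩
  have hy : (Polynomial.aeval (shift K) (PL L D)) (yy p eta d r D) = 0 := by
    rw [yy, map_sub, map_sum, map_sum]
    rw [Finset.sum_eq_zero, Finset.sum_eq_zero, sub_zero]
    · intro j hj
      rw [map_smul, map_sum, Finset.sum_eq_zero, smul_zero]
      intro J hJ
      rw [Finset.mem_erase, Finset.mem_powerset] at hJ
      rw [map_smul, hkill J (hJ.2.trans (Finset.erase_subset _ _)) hJ.1 1 (by omega), smul_zero]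
    · intro J hJ
      rw [Finset.mem_erase, Finset.mem_powerset] at hJ
      rw [map_smul, map_sum, Finset.sum_eq_zero, smul_zero]
      intro i hi
      rw [Finset.mem_range] at hi
      rw [map_smul, hkill J hJ.2 hJ.1 i (by omega), smul_zero]
  have hz : ∀ n, D < n → zz p eta d r D n = 0 := by
    intro n hn
    rw [zz]
    simp only [Pi.sub_apply, Pi.smul_apply, Finset.sum_apply, smul_eq_mul]
    rw [SS_zero_big 1 n (by omega)]
    simp only [mul_zero, Finset.sum_const_zero, sub_zero]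
    rw [Finset.sum_eq_zero, mul_zero]
    intro i hi
    rw [Finset.mem_range] at hi
    rw [SS_zero_big i n (by omega), mul_zero]
  have hzy : ∀ n, n < (L.card + 1) * (D + 1) → zz p eta d r D n + yy p eta d r D n = 0 := by
    intro n hn
    have hnN : n < N := lt_of_lt_of_le hn (by rw [hNdef]; exact Nat.mul_le_mul_right _ hcard)
    rw [← fact_coeff_ZZ p eta d r D n (by omega), hZ n hnN, map_zero, mul_zero]
  have hfin := hA2 K L D (yy p eta d r D) (zz p eta d r D) h0L hy hz hzy
  have h1' := congrFun hfin 1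
  rw [zz] at h1'
  simp only [Pi.sub_apply, Pi.smul_apply, Finset.sum_apply, smul_eq_mul, Pi.zero_apply,
    SS_zero_one, mul_ite, mul_one, mul_zero, if_true] at h1'
  rw [Finset.sum_ite_eq' (range (D + 1)) 1, if_pos (Finset.mem_range.mpr (by omega)), coeff_gg,
    cc_one p (by omega), ← Finset.sum_mul] at h1'
  set S : K := ∑ j ∈ range d, eta ^ (2 * r * j) * eta ^ j with hS
  have hS' : ∑ j ∈ range d, eta ^ ((2 * r + 1) * j) = S := by
    rw [hS]
    refine Finset.sum_congr rfl (fun j _ => ?_)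
    rw [← pow_add]; congr 1; ring
  rw [hS', map_neg, map_inv₀, map_ofNat] at h1'
  have h20 : (2 : K) ≠ 0 := by
    intro h
    have h' : ((2 : ℕ) : K) = 0 := by exact_mod_cast h
    rw [CharP.cast_eq_zero_iff K p] at h'
    have := Nat.le_of_dvd (by norm_num) h'
    omega
  have hgeom : S * (eta ^ (2 * r + 1) - 1) = -2 := by
    have hg := geom_sum_mul (eta ^ (2 * r + 1)) d
    have : ∑ j ∈ range d, (eta ^ (2 * r + 1)) ^ j = S := by
      rw [← hS']
      refine Finset.sum_congr rfl (fun j _ => ?_)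
      rw [← pow_mul]
    rw [this, ← pow_mul, mul_comm (2 * r + 1) d, pow_mul, h1] at hg
    rw [hg, Odd.neg_one_pow ⟨r, rfl⟩]
    norm_num
  have hS0 : S ≠ 0 := by
    intro h
    rw [h, zero_mul] at hgeom
    exact h20 (by linear_combination hgeom)
  obtain ⟨e, rfl⟩ : ∃ e, d = e + 1 := ⟨d - 1, by omega⟩
  rw [Nat.add_sub_cancel, pow_succ] at h1'
  have hm : ((-1 : K) ^ e) ≠ 0 := pow_ne_zero _ (by norm_num)
  have hfinal : (-1 : K) ^ e * (S * 2⁻¹) = 0 := by
    have h22 : (2 : K) * 2⁻¹ = 1 := mul_inv_cancel₀ h20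
    linear_combination (-1 : K) * h1' + ((-1 : K) ^ e * S) * h22
  rcases mul_eq_zero.mp hfinal with h | h
  · exact hm h
  · rcases mul_eq_zero.mp h with h | h
    · exact hS0 h
    · exact inv_ne_zero h20 h

end Pool.Agent.H582R5.RP
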