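import Mathlib
import Pool.Agent.H582R5.RP.Core2

open Finset

namespace Pool.Agent.H582R5.RP

theorem main_of (hA1 : S_A1) (hA2 : S_A2) (hC : S_C)
    (p d : ℕ) (hp : p.Prime) (hd : 1 ≤ d) (hpd : d ^ Nat.totient (2 * d) < p)
    (a : ℕ) (ha : 1 ≤ a) (hN : 2 ^ d * (2 * a + 1) < p) (c : ℤ) :
    ∃ m : ℕ, (m : ℤ) ≡ c [ZMOD d] ∧ a < m ∧ 2 * m < 2 ^ d * (2 * a + 1) ∧
      ¬ ((p : ℤ) ∣ (bernoulli (2 * m)).num) := by
  have : Fact p.Prime := ⟨hp⟩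
  obtain ⟨K, _, _, eta, h1, h2, h3⟩ := hC p d hp hd hpd
  by_contra hcon
  push Not at hcon
  have hd0 : (d : ℤ) ≠ 0 := by exact_mod_cast (by omega : d ≠ 0)
  set r : ℕ := ((-c) % (d : ℤ)).toNat with hr
  have hrZ : (r : ℤ) = (-c) % (d : ℤ) := Int.toNat_of_nonneg (Int.emod_nonneg _ hd0)
  refine core hA1 hA2 p K eta d r a hd ha hN h1 h2 h3 (fun m hm1 hm2 hm3 => ?_)
  refine hcon m ?_ hm1 hm2
  have h4 : (d : ℤ) ∣ (m : ℤ) + (-c) % (d : ℤ) := by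
    rw [← hrZ]; exact_mod_cast hm3
  have h5 : (d : ℤ) ∣ (-c) - (-c) % (d : ℤ) := Int.dvd_self_sub_emod
  have h6 : (d : ℤ) ∣ (m : ℤ) - c := by
    have := dvd_add h4 h5
    have e : (m : ℤ) + (-c) % (d : ℤ) + ((-c) - (-c) % (d : ℤ)) = m - c := by ring
    rwa [e] at this
  exact (Int.modEq_iff_dvd.mpr (by rwa [← dvd_neg, neg_sub] : (d : ℤ) ∣ c - m))

end Pool.Agent.H582R5.RP
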